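import Mathlib
import Pool.Agent.X194.Spacing

/-!
# MP_bfac72_an: a weakly mixing (hence transitive and thickly sensitive) system that is not
filter-sensitive

The system is a one-sided spacing shift.
-/

namespace Pool.Agent.Results.MP_bfac72_an.NotFilterSensitive

open Set Topology Filter Pool.Agent.X194.Seq Pool.Agent.X194.Spacing

variable {X : Type}

/-- open and non-empty -/
def Opene [TopologicalSpace X] (U : Set X) : Prop := IsOpen U ∧ U.Nonempty

/-- `N_T(U,V) = {n : T^n U ∩ V ≠ ∅}`. -/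
def NSet (T : X → X) (U V : Set X) : Set ℕ := {n | (T^[n] '' U ∩ V).Nonempty}

/-- transitivity -/
def Transitive' [TopologicalSpace X] (T : X → X) : Prop :=
  ∀ U V : Set X, Opene U → Opene V → (NSet T U V).Nonempty

/-- weak mixing: `T × T` is transitive -/
def WeaklyMixing [TopologicalSpace X] (T : X → X) : Prop := Transitive' (Prod.map T T)

/-- `S_T(U,δ)` -/
def SSet [MetricSpace X] (T : X → X) (U : Set X) (δ : ℝ) : Set ℕ :=
  {n | ∃ x ∈ U, ∃ y ∈ U, δ < dist (T^[n] x) (T^[n] y)}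

/-- the family `𝒮_T(δ)` of all sets containing some `S_T(U,δ)`, `U` opene -/
def SFam [MetricSpace X] (T : X → X) (δ : ℝ) : Set (Set ℕ) :=
  {A | ∃ U : Set X, Opene U ∧ SSet T U δ ⊆ A}

/-- A family is a filter if it is proper (neither empty nor everything) and closed under binary
intersections. -/
def IsFilterFamily (F : Set (Set ℕ)) : Prop :=
  F ≠ ∅ ∧ F ≠ univ ∧ ∀ A ∈ F, ∀ B ∈ F, A ∩ B ∈ F

/-- filter-sensitivity -/
def FilterSensitive [MetricSpace X] (T : X → X) : Prop :=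
  ∃ δ : ℝ, 0 < δ ∧ IsFilterFamily (SFam T δ)

/-- thick sets: they contain arbitrarily long intervals -/
def Thick (A : Set ℕ) : Prop := ∀ n : ℕ, ∃ a : ℕ, ∀ i < n, a + i ∈ A

/-- thick sensitivity -/
def ThicklySensitive [MetricSpace X] (T : X → X) : Prop :=
  ∃ δ : ℝ, 0 < δ ∧ ∀ U : Set X, Opene U → Thick (SSet T U δ)

/-! ### the example -/

/-- the scales -/
def D (s : ℕ) : ℕ := 8 ^ (s + 1)

/-- the set `P` -/
def inP (n : ℕ) : Prop :=
  ∃ s, (D s ≤ n ∧ n ≤ D s + s) ∨ (∃ i, (Nat.unpair s).1.testBit i = true ∧ n + i = 2 * D s)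

lemma lt_D (s : ℕ) : 4 * s < D s := by
  unfold D
  induction s with
  | zero => norm_num
  | succ k ih => rw [pow_succ]; omega

lemma D_mono {s t : ℕ} (h : s < t) : 8 * D s ≤ D t := by
  unfold D
  have : 8 * 8 ^ (s + 1) = 8 ^ (s + 1 + 1) := by rw [pow_succ 8 (s + 1)]; ring
  rw [this]
  exact Nat.pow_le_pow_right (by norm_num) (by omega)

lemma bit_lt {s i : ℕ} (h : (Nat.unpair s).1.testBit i = true) : i < s := by
  have h1 : 2 ^ i ≤ (Nat.unpair s).1 := Nat.ge_two_pow_of_testBit h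
  have h2 : i < 2 ^ i := Nat.lt_two_pow_self
  have h3 := Nat.unpair_left_le s
  omega

lemma P_window {s n : ℕ} (h1 : D s + s < n) (h2 : n < 8 * D s) (h : inP n) :
    ∃ i, (Nat.unpair s).1.testBit i = true ∧ n + i = 2 * D s := by
  obtain ⟨t, ht⟩ := h
  have hb : D t ≤ n ∧ n ≤ 2 * D t := by
    have := lt_D t
    rcases ht with ht | ⟨i, hi, ht⟩
    · omega
    · have := bit_lt hi
      omega
  rcases lt_trichotomy t s with h3 | h3 | h3
  · have := D_mono h3
    omega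
  · subst h3
    rcases ht with ht | ht
    · omega
    · exact ht
  · have := D_mono h3
    omega

lemma P_avoid {k n : ℕ} (h1 : 4 * D k ≤ n + k) (h2 : n ≤ 4 * D k + k) : ¬ inP n := by
  intro h
  have h0 := lt_D k
  obtain ⟨i, -, hi⟩ := P_window (s := k) (by omega) (by omega) h
  omega

lemma P_thick {s n : ℕ} (h1 : D s ≤ n) (h2 : n ≤ D s + s) : inP n := ⟨s, Or.inl ⟨h1, h2⟩⟩

/-- the system -/
abbrev X₀ : Type := Om inP

lemma weaklyMixing_T : WeaklyMixing (T inP) := by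
  rintro W₁ W₂ ⟨hW₁, ⟨a, b⟩, hab⟩ ⟨hW₂, ⟨c, d⟩, hcd⟩
  obtain ⟨N₁, hN₁⟩ := exists_N_prod hW₁ hab
  obtain ⟨N₂, hN₂⟩ := exists_N_prod hW₂ hcd
  set N := max N₁ N₂ with hN
  have hlt := lt_D (2 * N)
  set n := D (2 * N) + N with hn
  have hgood : ∀ m, n ≤ m + N → m ≤ n + N → inP m := fun m h1 h2 =>
    P_thick (s := 2 * N) (by omega) (by omega)
  obtain ⟨r, hr, hra, hrc⟩ := glue a.2 c.2 (N := N) (n := n) (by omega) hgood
  obtain ⟨s, hs, hsb, hsd⟩ := glue b.2 d.2 (N := N) (n := n) (by omega) hgood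
  refine ⟨n, (Prod.map (T inP) (T inP))^[n] (⟨r, hr⟩, ⟨s, hs⟩), ⟨_, ?_, rfl⟩, ?_⟩
  · refine hN₁ _ _ (fun i hi => hra i ?_) (fun i hi => hsb i ?_)
    · exact lt_of_lt_of_le hi (le_max_left _ _)
    · exact lt_of_lt_of_le hi (le_max_left _ _)
  · rw [Prod.map_iterate]
    refine hN₂ _ _ (fun i hi => ?_) (fun i hi => ?_)
    · rw [sh_iter]
      exact hrc i (lt_of_lt_of_le hi (le_max_right _ _))
    · rw [sh_iter]
      exact hsd i (lt_of_lt_of_le hi (le_max_right _ _))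

lemma transitive_T : Transitive' (T inP) := by
  rintro U V ⟨hU, u, hu⟩ ⟨hV, v, hv⟩
  obtain ⟨n, p, ⟨⟨a, b⟩, hab, hp⟩, hpV⟩ := weaklyMixing_T (U ×ˢ U) (V ×ˢ V)
    ⟨hU.prod hU, (u, u), hu, hu⟩ ⟨hV.prod hV, (v, v), hv, hv⟩
  refine ⟨n, p.1, ⟨a, hab.1, ?_⟩, hpV.1⟩
  rw [← hp, Prod.map_iterate]
  rfl

section metric

attribute [local instance] PiNat.metricSpace

lemma dist_eq_one {x y : X₀} (h : x.1 0 ≠ y.1 0) : dist x y = 1 := by
  have h1 : dist x y = dist x.1 y.1 := rfl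
  have hne : x.1 ≠ y.1 := fun he => h (by rw [he])
  rw [h1, PiNat.dist_eq_of_ne hne]
  have h2 : PiNat.firstDiff x.1 y.1 = 0 := by
    by_contra h3
    exact h (PiNat.apply_eq_of_lt_firstDiff (Nat.pos_of_ne_zero h3))
  rw [h2, pow_zero]

lemma dist_le_one (x y : X₀) : dist x y ≤ 1 := PiNat.dist_le_one x.1 y.1

lemma exists_diff {x y : X₀} {k : ℕ} {δ : ℝ} (hk : (1 / 2 : ℝ) ^ k ≤ δ) (h : δ < dist x y) :
    ∃ i < k, x.1 i ≠ y.1 i := by
  by_contra hcon
  push Not at hcon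
  have h1 : x.1 ∈ PiNat.cylinder y.1 k := PiNat.mem_cylinder_iff.2 hcon
  have h2 : dist x.1 y.1 ≤ (1 / 2 : ℝ) ^ k := PiNat.mem_cylinder_iff_dist_le.1 h1
  have h3 : dist x y = dist x.1 y.1 := rfl
  rw [h3] at h
  linarith

/-- a time in `S_T(U,δ)` gives a point of `U` with a symbol `1` near that time -/
lemma exists_one {U : Set X₀} {k n : ℕ} {δ : ℝ} (hk : (1 / 2 : ℝ) ^ k ≤ δ)
    (h : n ∈ SSet (T inP) U δ) : ∃ w ∈ U, ∃ i < k, w.1 (i + n) = true := by
  obtain ⟨x, hx, y, hy, hxy⟩ := h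
  obtain ⟨i, hi, hne⟩ := exists_diff hk hxy
  rw [sh_iter, sh_iter] at hne
  by_cases h1 : x.1 (i + n) = true
  · exact ⟨x, hx, i, hi, h1⟩
  · refine ⟨y, hy, i, hi, ?_⟩
    cases hy' : y.1 (i + n) with
    | true => rfl
    | false =>
      rw [hy'] at hne
      exact absurd (by simpa using h1) hne

/-- times in `S_T(U,δ)` -/
lemma mem_SSet {U : Set X₀} {δ : ℝ} (hδ : δ < 1) {x : X₀} {L : ℕ}
    (hL : ∀ a' : X₀, (∀ i < L, a'.1 i = x.1 i) → a' ∈ U) {q : ℕ} (hq : L ≤ q)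
    (h : ∀ i < L, x.1 i = true → inP (q - i)) : q ∈ SSet (T inP) U δ := by
  refine ⟨⟨_, trunc_add_mem x.2 L q hq h⟩, ?_, ⟨_, trunc_mem x.2 L⟩, ?_, ?_⟩
  · refine hL _ fun i hi => ?_
    have : i ≠ q := by omega
    simp [hi, this]
  · refine hL _ fun i hi => ?_
    simp [hi]
  · rw [dist_eq_one]
    · exact hδ
    · rw [sh_iter, sh_iter]
      have : ¬ q < L := by omega
      simp [this]

lemma thicklySensitive_T : ThicklySensitive (T inP) := by
  refine ⟨1 / 2, by norm_num, ?_⟩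
  rintro U ⟨hU, x, hx⟩ n
  obtain ⟨L, hL⟩ := exists_N hU hx
  have h0 := lt_D (n + L)
  refine ⟨D (n + L) + L, fun i hi => ?_⟩
  refine mem_SSet (by norm_num) hL (by omega) fun j hj _ => ?_
  exact P_thick (s := n + L) (by omega) (by omega)

lemma not_filterSensitive_T : ¬ FilterSensitive (T inP) := by
  rintro ⟨δ, hδ, -, hproper, hfil⟩
  rcases le_or_gt 1 δ with h1 | h1
  · -- `δ` at least the diameter: the family is improper
    apply hproper
    refine eq_univ_of_forall fun A => ⟨univ, ⟨isOpen_univ, ⟨⟨fun _ => false, fun i j _ h => by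
      simp at h⟩, mem_univ _⟩⟩, ?_⟩
    rintro n ⟨x, -, y, -, hxy⟩
    exact absurd (lt_of_le_of_lt h1 hxy) (not_lt.2 (dist_le_one _ _))
  obtain ⟨k, hk⟩ := exists_pow_lt_of_lt_one hδ (by norm_num : (1 / 2 : ℝ) < 1)
  have hkD := lt_D k
  set m := 4 * D k with hm
  let U₁ : Set X₀ := {x | x.1 0 = true}
  let U₂ : Set X₀ := {x | x.1 m = true}
  have hU₁ : Opene U₁ := ⟨isOpen_coord 0 {true}, ⟨fun n => decide (n = 0), by
    intro i j hij h1 h2
    simp only [decide_eq_true_eq] at h1 h2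
    omega⟩, by simp [U₁]⟩
  have hU₂ : Opene U₂ := ⟨isOpen_coord m {true}, ⟨fun n => decide (n = m), by
    intro i j hij h1 h2
    simp only [decide_eq_true_eq] at h1 h2
    omega⟩, by simp [U₂]⟩
  obtain ⟨U₃, ⟨hU₃, x, hx⟩, hsub⟩ := hfil (SSet (T inP) U₁ δ) ⟨U₁, hU₁, Subset.rfl⟩
    (SSet (T inP) U₂ δ) ⟨U₂, hU₂, Subset.rfl⟩
  obtain ⟨L, hL⟩ := exists_N hU₃ hx
  -- the code of the cylinder
  set c := Nat.ofBits (fun i : Fin L => x.1 i) with hc
  have hbit : ∀ i, c.testBit i = true → i < L ∧ x.1 i = true := by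
    intro i hi
    by_cases hiL : i < L
    · refine ⟨hiL, ?_⟩
      rw [hc, Nat.testBit_ofBits_lt _ _ hiL] at hi
      exact hi
    · rw [hc, Nat.testBit_ofBits_ge _ _ (by omega)] at hi
      exact absurd hi (by simp)
  have hbit' : ∀ i, i < L → x.1 i = true → c.testBit i = true := by
    intro i hiL hi
    rw [hc, Nat.testBit_ofBits_lt _ _ hiL]
    exact hi
  set s := Nat.pair c (L + k + m) with hs
  have hs1 : L + k + m ≤ s := Nat.right_le_pair _ _
  have hs2 : (Nat.unpair s).1 = c := by rw [hs, Nat.unpair_pair]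
  have hsD := lt_D s
  set q := 2 * D s with hq
  have hqU : q ∈ SSet (T inP) U₃ δ := by
    refine mem_SSet h1 hL (by omega) fun i hi hxi => ?_
    refine ⟨s, Or.inr ⟨i, ?_, by omega⟩⟩
    rw [hs2]
    exact hbit' i hi hxi
  obtain ⟨hq1, hq2⟩ := hsub hqU
  -- first set
  obtain ⟨w, hw, i, hi, hwi⟩ := exists_one hk.le hq1
  have hP1 : inP (i + q - 0) := w.2 0 (i + q) (by omega) hw hwi
  obtain ⟨f, hf, hf2⟩ := P_window (s := s) (by omega) (by omega) hP1
  have hf0 : f = 0 := by omega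
  subst hf0
  rw [hs2] at hf
  have hx0 := (hbit 0 hf).2
  -- second set
  obtain ⟨w', hw', i', hi', hwi'⟩ := exists_one hk.le hq2
  have hP2 : inP (i' + q - m) := w'.2 m (i' + q) (by omega) hw' hwi'
  obtain ⟨f', hf', hf2'⟩ := P_window (s := s) (by omega) (by omega) hP2
  rw [hs2] at hf'
  have hxf := (hbit f' hf').2
  have hP3 : inP (f' - 0) := x.2 0 f' (by omega) hx0 hxf
  exact P_avoid (k := k) (by omega) (by omega) hP3

/-- **Disproof of Q1 and Q2.** -/
theorem result : ∃ (X : Type) (_ : MetricSpace X) (_ : CompactSpace X) (T : X → X),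
    Nontrivial X ∧ Continuous T ∧ Function.Surjective T ∧ WeaklyMixing T ∧ Transitive' T ∧
    ThicklySensitive T ∧ ¬ FilterSensitive T := by
  refine ⟨X₀, inferInstance, isCompact_iff_compactSpace.1 (Om_closed inP).isCompact, T inP, ?_,
    continuous_sh (Om_shift inP), surj_T, weaklyMixing_T, transitive_T, thicklySensitive_T,
    not_filterSensitive_T⟩
  refine ⟨⟨⟨fun n => false, fun i j _ h => by simp at h⟩, ⟨fun n => decide (n = 0), by
    intro i j hij h1 h2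
    simp only [decide_eq_true_eq] at h1 h2
    omega⟩, fun h => ?_⟩⟩
  have := congrArg (fun y : X₀ => y.1 0) h
  simp at this

end metric

end Pool.Agent.Results.MP_bfac72_an.NotFilterSensitive
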